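import Pool.Agent.Helper94.GA.Goals

/-!
# Packet INC: adding one digit increases the entropy
-/

namespace Pool.Agent.Helper5.GA

open Finset Pointwise Filter Topology
open Pool.Agent.Helper94.GA

universe u

section

variable {ι : Type} {A : Type u} [AddCommGroup A]

theorem dsum_update [DecidableEq ι] (β : ι → A) (s : Finset ι) (k : ι) (hk : k ∉ s)
    (δ : ι → Bool) (v : Bool) : dsum β s (Function.update δ k v) = dsum β s δ := by
  unfold dsum
  apply Finset.sum_congr rfl
  intro l hl
  have hne : l ≠ k := by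
    rintro rfl
    exact hk hl
  rw [Function.update_of_ne hne]

theorem dsum_insert [DecidableEq ι] (β : ι → A) (s : Finset ι) (k : ι) (hk : k ∉ s)
    (δ : ι → Bool) :
    dsum β (insert k s) δ = (if δ k then β k else 0) + dsum β s δ := by
  unfold dsum
  rw [Finset.sum_insert hk]

theorem card_X [Fintype ι] [DecidableEq ι] (β : ι → A) (s : Finset ι) (k : ι) (hk : k ∉ s)
    (δ : ι → Bool) :
    Nat.card {δ' // dsum β s δ' = dsum β s δ} =
      2 * Nat.card {δ' // dsum β (insert k s) δ' = dsum β (insert k s) δ ∧ δ' k = δ k} := by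
  classical
  have e1 : Nat.card {δ' // dsum β s δ' = dsum β s δ} =
      ((univ : Finset (ι → Bool)).filter (fun δ' => dsum β s δ' = dsum β s δ)).card := by
    rw [Nat.card_eq_fintype_card, Fintype.card_subtype]
  have e2 : Nat.card {δ' // dsum β (insert k s) δ' = dsum β (insert k s) δ ∧ δ' k = δ k} =
      ((univ : Finset (ι → Bool)).filter
        (fun δ' => dsum β (insert k s) δ' = dsum β (insert k s) δ ∧ δ' k = δ k)).card := by
    rw [Nat.card_eq_fintype_card, Fintype.card_subtype]
  have e3 : ((univ : Finset (ι → Bool)).filter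
        (fun δ' => dsum β (insert k s) δ' = dsum β (insert k s) δ ∧ δ' k = δ k)) =
      ((univ : Finset (ι → Bool)).filter (fun δ' => dsum β s δ' = dsum β s δ)).filter
        (fun δ' => δ' k = δ k) := by
    ext δ'
    simp only [Finset.mem_filter, Finset.mem_univ, true_and]
    constructor
    · rintro ⟨h1, h2⟩
      rw [dsum_insert β s k hk, dsum_insert β s k hk, h2] at h1
      exact ⟨add_left_cancel h1, h2⟩
    · rintro ⟨h1, h2⟩
      rw [dsum_insert β s k hk, dsum_insert β s k hk, h2, h1]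
      exact ⟨rfl, rfl⟩
  have e4 : (((univ : Finset (ι → Bool)).filter (fun δ' => dsum β s δ' = dsum β s δ)).filter
        (fun δ' => ¬ δ' k = δ k)).card =
      (((univ : Finset (ι → Bool)).filter (fun δ' => dsum β s δ' = dsum β s δ)).filter
        (fun δ' => δ' k = δ k)).card := by
    apply Finset.card_nbij' (fun δ' => Function.update δ' k (!(δ' k)))
      (fun δ' => Function.update δ' k (!(δ' k)))
    · intro δ' h
      simp only [Finset.coe_filter, Finset.mem_filter, Finset.mem_univ, true_and,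
        Set.mem_setOf_eq] at h ⊢
      rw [dsum_update β s k hk]
      refine ⟨h.1, ?_⟩
      rw [Function.update_self]
      have := h.2
      cases h1 : δ' k <;> cases h2 : δ k <;> simp_all
    · intro δ' h
      simp only [Finset.coe_filter, Finset.mem_filter, Finset.mem_univ, true_and,
        Set.mem_setOf_eq] at h ⊢
      rw [dsum_update β s k hk]
      refine ⟨h.1, ?_⟩
      rw [Function.update_self]
      have := h.2
      cases h1 : δ' k <;> cases h2 : δ k <;> simp_all
    · intro δ' _
      simp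
    · intro δ' _
      simp
  have e5 := Finset.card_filter_add_card_filter_not
    (s := (univ : Finset (ι → Bool)).filter (fun δ' => dsum β s δ' = dsum β s δ))
    (fun δ' => δ' k = δ k)
  rw [e1, e2, e3]
  rw [e4] at e5
  omega

theorem phi_dsum (φ : A →+ ℂ) (β : ι → A) (s : Finset ι) (δ : ι → Bool) :
    φ (dsum β s δ) = dsum (fun l => φ (β l)) s δ := by
  unfold dsum
  rw [map_sum]
  apply Finset.sum_congr rfl
  intro l _
  split_ifs
  · rfl
  · exact map_zero φ

end

theorem INC (h1 : INFO_stmt.{u}) (h2 : VAR_stmt) : INC_stmt.{u} := by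
  intro ι _ _ A _ β s k hk φ
  classical
  set z : ι → ℂ := fun l => φ (β l) with hz
  set c : ℂ := (1 / 2) * ∑ l ∈ insert k s, z l with hc
  have hI := h1 (ι → Bool) A (fun δ => δ k) (dsum β (insert k s)) (fun y => φ y - c)
  obtain ⟨hv1, hv2⟩ := h2 ι z (insert k s)
  have hv2 := hv2 k (Finset.mem_insert_self k s)
  have hf : ∀ δ : ι → Bool, φ (dsum β (insert k s) δ) = dsum z (insert k s) δ :=
    fun δ => phi_dsum φ β (insert k s) δ
  simp only [hf] at hI
  rw [hv1, hv2] at hI
  have hcard : (Fintype.card (ι → Bool) : ℝ) = (2 : ℝ) ^ (Fintype.card ι) := by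
    rw [Fintype.card_fun, Fintype.card_bool]
    push_cast
    rfl
  have hP : (0 : ℝ) < (2 : ℝ) ^ (Fintype.card ι) := by positivity
  set P : ℝ := (2 : ℝ) ^ (Fintype.card ι) with hPdef
  have hnorm : ‖(2 : ℂ) ^ (Fintype.card ι) * ((1 / 2) * z k)‖ = P * ((1 / 2) * ‖z k‖) := by
    rw [norm_mul, norm_mul, norm_pow]
    simp [hPdef]
  rw [hnorm] at hI
  have hratio : (P * ((1 / 2) * ‖z k‖)) ^ 2 / (P * ((1 / 4) * ∑ l ∈ insert k s, ‖z l‖ ^ 2)) =
      P * (‖z k‖ ^ 2 / ∑ l ∈ insert k s, ‖z l‖ ^ 2) := by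
    by_cases h0 : ∑ l ∈ insert k s, ‖z l‖ ^ 2 = 0
    · rw [h0]
      simp
    · field_simp
      ring
  rw [hratio] at hI
  have hsum : (∑ δ : ι → Bool, Real.log (2 * (Nat.card {δ' //
        dsum β (insert k s) δ' = dsum β (insert k s) δ ∧ δ' k = δ k} : ℝ) /
        Nat.card {δ' // dsum β (insert k s) δ' = dsum β (insert k s) δ})) =
      (∑ δ : ι → Bool, Real.log (Nat.card {δ' // dsum β s δ' = dsum β s δ})) -
      ∑ δ : ι → Bool,
        Real.log (Nat.card {δ' // dsum β (insert k s) δ' = dsum β (insert k s) δ}) := by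
    rw [← Finset.sum_sub_distrib]
    apply Finset.sum_congr rfl
    intro δ _
    have hx := card_X β s k hk δ
    have hx' : (Nat.card {δ' // dsum β s δ' = dsum β s δ} : ℝ) = 2 * (Nat.card {δ' //
        dsum β (insert k s) δ' = dsum β (insert k s) δ ∧ δ' k = δ k} : ℝ) := by
      rw [hx]
      push_cast
      rfl
    rw [← hx']
    apply Real.log_div
    · haveI : Nonempty {δ' // dsum β s δ' = dsum β s δ} := ⟨⟨δ, rfl⟩⟩
      exact_mod_cast (Nat.card_pos (α := {δ' // dsum β s δ' = dsum β s δ})).ne'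
    · haveI : Nonempty {δ' // dsum β (insert k s) δ' = dsum β (insert k s) δ} := ⟨⟨δ, rfl⟩⟩
      exact_mod_cast
        (Nat.card_pos (α := {δ' // dsum β (insert k s) δ' = dsum β (insert k s) δ})).ne'
  have hI2 : (1 / 2) * (P * (‖z k‖ ^ 2 / ∑ l ∈ insert k s, ‖z l‖ ^ 2)) ≤
      (∑ δ : ι → Bool, Real.log (Nat.card {δ' // dsum β s δ' = dsum β s δ})) -
      ∑ δ : ι → Bool,
        Real.log (Nat.card {δ' // dsum β (insert k s) δ' = dsum β (insert k s) δ}) := by
    rw [← hsum]
    exact hI
  unfold Dent ent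
  rw [hcard]
  have key : (1 / 2) * (‖z k‖ ^ 2 / ∑ l ∈ insert k s, ‖z l‖ ^ 2) ≤
      ((∑ δ : ι → Bool, Real.log (Nat.card {δ' // dsum β s δ' = dsum β s δ})) -
      ∑ δ : ι → Bool,
        Real.log (Nat.card {δ' // dsum β (insert k s) δ' = dsum β (insert k s) δ})) / P := by
    rw [le_div_iff₀ hP]
    linarith [hI2]
  rw [sub_div] at key
  linarith [key]

end Pool.Agent.Helper5.GA
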